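import Mathlib

set_option autoImplicit false

namespace Pool.Agent.Results.MP_fc8d4d_co.LocatingProduct

open SimpleGraph

/-- the distance from `v` to the colour class of the colour `i`: least distance to a vertex
coloured `i` -/
noncomputable def code {V : Type} (G : SimpleGraph V) {k : ℕ} (c : V → Fin k) (v : V) :
    Fin k → ℕ :=
  fun i => sInf {n : ℕ | ∃ u, c u = i ∧ G.dist v u = n}

/-- `G` has a locating colouring with exactly `k` (nonempty) colour classes -/
def HasLocating {V : Type} (G : SimpleGraph V) (k : ℕ) : Prop :=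
  ∃ c : V → Fin k, Function.Surjective c ∧ (∀ u v, G.Adj u v → c u ≠ c v) ∧
    Function.Injective (code G c)

/-- the locating chromatic number -/
noncomputable def chiL {V : Type} (G : SimpleGraph V) : ℕ := sInf {k | HasLocating G k}

lemma code_le {V : Type} (G : SimpleGraph V) {k : ℕ} (c : V → Fin k) (v u : V) (i : Fin k)
    (h : c u = i) : code G c v i ≤ G.dist v u :=
  Nat.sInf_le ⟨u, h, rfl⟩

lemma code_spec {V : Type} (G : SimpleGraph V) {k : ℕ} (c : V → Fin k)
    (hc : Function.Surjective c) (v : V) (i : Fin k) :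
    ∃ u, c u = i ∧ G.dist v u = code G c v i := by
  have : {n : ℕ | ∃ u, c u = i ∧ G.dist v u = n}.Nonempty := by
    obtain ⟨u, hu⟩ := hc i
    exact ⟨_, u, hu, rfl⟩
  exact Nat.sInf_mem this

lemma code_self {V : Type} (G : SimpleGraph V) {k : ℕ} (c : V → Fin k) (v : V) :
    code G c v (c v) = 0 := by
  have := code_le G c v v (c v) rfl
  simpa using this

lemma code_eq_zero {V : Type} (G : SimpleGraph V) (hG : G.Connected) {k : ℕ} (c : V → Fin k)
    (hc : Function.Surjective c) (v : V) (i : Fin k) (h : code G c v i = 0) : c v = i := by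
  obtain ⟨u, hu, hd⟩ := code_spec G c hc v i
  rw [h, hG.dist_eq_zero_iff] at hd
  rw [hd, hu]

lemma col_eq_of_code_eq {V : Type} (G : SimpleGraph V) (hG : G.Connected) {k : ℕ} (c : V → Fin k)
    (hc : Function.Surjective c) {v w : V} (h : code G c v = code G c w) : c v = c w := by
  have h1 := code_self G c w
  rw [← h] at h1
  exact code_eq_zero G hG c hc v _ h1

/-- every finite connected graph has a locating colouring -/
lemma exists_locating {V : Type} [Fintype V] (G : SimpleGraph V) (hG : G.Connected) :
    HasLocating G (Fintype.card V) := by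
  classical
  let e := Fintype.equivFin V
  refine ⟨e, e.surjective, fun u v h h' => h.ne (e.injective h'), ?_⟩
  intro v w h
  exact e.injective (col_eq_of_code_eq G hG e e.surjective h)

/-- the vertices: `none` is joined to everything, `inl j` form a clique, `inr S` is joined to the
`inl j` with `j ∈ S` -/
abbrev W (n : ℕ) : Type := Option (Fin n ⊕ Finset (Fin n))

/-- the adjacency relation of the graph `gr n` -/
def adj (n : ℕ) : W n → W n → Prop
  | none, none => False
  | none, some _ => True
  | some _, none => True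
  | some (.inl i), some (.inl j) => i ≠ j
  | some (.inl i), some (.inr S) => i ∈ S
  | some (.inr S), some (.inl i) => i ∈ S
  | some (.inr _), some (.inr _) => False

lemma adj_symm (n : ℕ) : ∀ x y : W n, adj n x y → adj n y x
  | none, none => id
  | none, some _ => id
  | some _, none => id
  | some (.inl _), some (.inl _) => Ne.symm
  | some (.inl _), some (.inr _) => id
  | some (.inr _), some (.inl _) => id
  | some (.inr _), some (.inr _) => id

lemma adj_irrefl (n : ℕ) : ∀ x : W n, ¬ adj n x x
  | none => id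
  | some (.inl _) => fun h => h rfl
  | some (.inr _) => id

/-- the graph -/
def gr (n : ℕ) : SimpleGraph (W n) where
  Adj := adj n
  symm := ⟨adj_symm n⟩
  loopless := ⟨adj_irrefl n⟩

lemma gr_none_adj {n : ℕ} (x : W n) (h : x ≠ none) : (gr n).Adj none x := by
  cases x with
  | none => exact absurd rfl h
  | some y => exact trivial

lemma gr_reach {n : ℕ} (x : W n) : (gr n).Reachable none x := by
  by_cases h : x = none
  · rw [h]
  · exact (gr_none_adj x h).reachable

lemma gr_conn (n : ℕ) : (gr n).Connected := by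
  have : Nonempty (W n) := ⟨none⟩
  exact ⟨fun x y => (gr_reach x).symm.trans (gr_reach y)⟩

/-- the colouring with `n + 2` colours -/
def col (n : ℕ) : W n → Fin (n + 2)
  | none => ⟨n, by omega⟩
  | some (.inl j) => ⟨j, by omega⟩
  | some (.inr _) => ⟨n + 1, by omega⟩

lemma gr_locating (n : ℕ) : HasLocating (gr n) (n + 2) := by
  have hsurj : Function.Surjective (col n) := by
    intro i
    rcases i with ⟨i, hi⟩
    rcases Nat.lt_trichotomy i n with h | h | h
    · exact ⟨some (.inl ⟨i, h⟩), rfl⟩
    · subst h; exact ⟨none, rfl⟩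
    · have : i = n + 1 := by omega
      subst this
      exact ⟨some (.inr ∅), rfl⟩
  refine ⟨col n, hsurj, ?_, ?_⟩
  · rintro (_ | i | S) (_ | j | T) h
    · exact absurd h id
    · simp only [col, ne_eq, Fin.mk.injEq]; omega
    · simp only [col, ne_eq, Fin.mk.injEq]; omega
    · simp only [col, ne_eq, Fin.mk.injEq]; omega
    · simp only [col, ne_eq, Fin.mk.injEq]
      intro h'
      exact h (Fin.ext h')
    · simp only [col, ne_eq, Fin.mk.injEq]; omega
    · simp only [col, ne_eq, Fin.mk.injEq]; omega
    · simp only [col, ne_eq, Fin.mk.injEq]; omega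
    · exact absurd h id
  · intro x y h
    have hcol := col_eq_of_code_eq (gr n) (gr_conn n) (col n) hsurj h
    rcases x with _ | i | S <;> rcases y with _ | j | T
    · rfl
    · simp only [col, Fin.mk.injEq] at hcol; omega
    · simp only [col, Fin.mk.injEq] at hcol; omega
    · simp only [col, Fin.mk.injEq] at hcol; omega
    · simp only [col, Fin.mk.injEq] at hcol
      rw [Fin.ext hcol]
    · simp only [col, Fin.mk.injEq] at hcol; omega
    · simp only [col, Fin.mk.injEq] at hcol; omega
    · simp only [col, Fin.mk.injEq] at hcol; omega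
    · -- two subsets: read off membership from the code
      have key : ∀ (S : Finset (Fin n)) (j : Fin n),
          code (gr n) (col n) (some (.inr S)) ⟨j, by omega⟩ = 1 ↔ j ∈ S := by
        intro S j
        obtain ⟨u, hu, hd⟩ := code_spec (gr n) (col n) hsurj (some (.inr S)) ⟨j, by omega⟩
        have hu' : u = some (.inl j) := by
          rcases u with _ | i | T
          · simp only [col, Fin.mk.injEq] at hu; omega
          · simp only [col, Fin.mk.injEq] at hu
            rw [Fin.ext hu]
          · simp only [col, Fin.mk.injEq] at hu; omega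
        rw [← hd, hu', SimpleGraph.dist_eq_one_iff_adj]
        exact Iff.rfl
      have : S = T := by
        ext j
        rw [← key S j, ← key T j, h]
      rw [this]

lemma top_locating (k : ℕ) (hk : 0 < k) : HasLocating (⊤ : SimpleGraph (Fin k)) k := by
  have : Nonempty (Fin k) := ⟨⟨0, hk⟩⟩
  refine ⟨id, Function.surjective_id, fun u v h => h.ne, ?_⟩
  intro v w h
  exact col_eq_of_code_eq ⊤ SimpleGraph.connected_top id Function.surjective_id h

lemma dist_le_three (n k : ℕ) (x y : W n × Fin k) :
    ((gr n) □ (⊤ : SimpleGraph (Fin k))).dist x y ≤ 3 := by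
  have hk : 0 < k := x.2.pos
  have : Nonempty (Fin k) := ⟨⟨0, hk⟩⟩
  have hconn : ((gr n) □ (⊤ : SimpleGraph (Fin k))).Connected :=
    (gr_conn n).boxProd SimpleGraph.connected_top
  have h1 : ∀ (z : W n) (b : Fin k),
      ((gr n) □ (⊤ : SimpleGraph (Fin k))).dist (none, b) (z, b) ≤ 1 := by
    intro z b
    by_cases hz : z = none
    · rw [hz]; simp
    · exact (SimpleGraph.dist_eq_one_iff_adj.2
        (SimpleGraph.boxProd_adj_left.2 (gr_none_adj z hz))).le
  have h2 : ∀ (b b' : Fin k),
      ((gr n) □ (⊤ : SimpleGraph (Fin k))).dist (none, b) (none, b') ≤ 1 := by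
    intro b b'
    by_cases hz : b = b'
    · rw [hz]; simp
    · exact (SimpleGraph.dist_eq_one_iff_adj.2 (SimpleGraph.boxProd_adj_right.2 hz)).le
  obtain ⟨a, b⟩ := x
  obtain ⟨a', b'⟩ := y
  have h3 := h1 a b
  rw [SimpleGraph.dist_comm] at h3
  have h4 := h2 b b'
  have h5 := h1 a' b'
  have h6 := hconn.dist_triangle (u := (a, b)) (v := (none, b)) (w := (none, b'))
  have h7 := hconn.dist_triangle (u := (a, b)) (v := (none, b')) (w := (a', b'))
  omega

/-- counting colour codes -/
lemma count (n k m c : ℕ) (hk : 0 < k) (hm : m ≤ k + c)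
    (h : HasLocating ((gr n) □ (⊤ : SimpleGraph (Fin k))) m) :
    Fintype.card (W n × Fin k) ≤ (m * 4) ^ (c + 1) := by
  classical
  obtain ⟨f, hf, hprop, hinj⟩ := h
  have : Nonempty (Fin k) := ⟨⟨0, hk⟩⟩
  have hconn : ((gr n) □ (⊤ : SimpleGraph (Fin k))).Connected :=
    (gr_conn n).boxProd SimpleGraph.connected_top
  set P := (gr n) □ (⊤ : SimpleGraph (Fin k)) with hP
  have hval : ∀ x i, code P f x i < 4 := by
    intro x i
    obtain ⟨u, hu, hd⟩ := code_spec P f hf x i
    rw [← hd]
    exact Nat.lt_succ_of_le (dist_le_three n k x u)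
  -- all but `c + 1` entries of a code are equal to 1
  have hfew : ∀ x, (Finset.univ.filter (fun i => code P f x i ≠ 1)).card ≤ c + 1 := by
    intro x
    let F : Finset (Fin m) := Finset.univ.image (fun b : Fin k => f (x.1, b))
    have hFinj : Function.Injective (fun b : Fin k => f (x.1, b)) := by
      intro b b' hb
      by_contra hne
      exact hprop (x.1, b) (x.1, b') (SimpleGraph.boxProd_adj_right.2 hne) hb
    have hFcard : F.card = k := by
      rw [Finset.card_image_of_injective _ hFinj]; simp
    have hsub : Finset.univ.filter (fun i => code P f x i ≠ 1) ⊆ insert (f x) Fᶜ := by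
      intro i hi
      simp only [Finset.mem_filter, Finset.mem_univ, true_and] at hi
      rw [Finset.mem_insert, Finset.mem_compl]
      by_contra hcon
      push Not at hcon
      obtain ⟨h1, h2⟩ := hcon
      simp only [F, Finset.mem_image, Finset.mem_univ, true_and] at h2
      obtain ⟨b, hb⟩ := h2
      apply hi
      apply le_antisymm
      · have hne : x.2 ≠ b := by
          intro h3
          apply h1
          rw [← hb, ← h3]
        have := code_le P f x (x.1, b) i hb
        have h4 : P.dist x (x.1, b) = 1 :=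
          SimpleGraph.dist_eq_one_iff_adj.2
            (show P.Adj (x.1, x.2) (x.1, b) from SimpleGraph.boxProd_adj_right.2 hne)
        omega
      · rw [Nat.one_le_iff_ne_zero]
        intro h0
        exact h1 (code_eq_zero P hconn f hf x i h0).symm
    have h1 := Finset.card_le_card hsub
    have h2 := Finset.card_insert_le (f x) Fᶜ
    have h3 : Fᶜ.card = m - k := by
      rw [Finset.card_compl, hFcard, Fintype.card_fin]
    omega
  have hex : ∀ x, ∃ t : Fin (c + 1) → Fin m, ∀ i, code P f x i ≠ 1 → ∃ j, t j = i := by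
    intro x
    let T := Finset.univ.filter (fun i => code P f x i ≠ 1)
    have hT : T.card ≤ c + 1 := hfew x
    let e := T.equivFin
    refine ⟨fun j => if h : (j : ℕ) < T.card then (e.symm ⟨j, h⟩ : Fin m) else f x, ?_⟩
    intro i hi
    have hiT : i ∈ T := by simp [T, hi]
    refine ⟨⟨e ⟨i, hiT⟩, by omega⟩, ?_⟩
    simp
  choose t ht using hex
  let Φ : W n × Fin k → (Fin (c + 1) → Fin m × Fin 4) :=
    fun x j => (t x j, ⟨code P f x (t x j), hval x _⟩)
  have hΦ : Function.Injective Φ := by
    intro x y hxy
    apply hinj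
    funext i
    have ht' : ∀ j, t x j = t y j := fun j => congrArg Prod.fst (congrFun hxy j)
    have hc' : ∀ j, code P f x (t x j) = code P f y (t y j) := fun j =>
      congrArg (fun p => (p.2 : ℕ)) (congrFun hxy j)
    by_cases h1 : code P f x i = 1
    · by_cases h2 : code P f y i = 1
      · rw [h1, h2]
      · obtain ⟨j, hj⟩ := ht y i h2
        have := hc' j
        rw [ht' j, hj] at this
        exact this
    · obtain ⟨j, hj⟩ := ht x i h1
      have := hc' j
      rw [← ht' j, hj] at this
      exact this
  have := Fintype.card_le_of_injective Φ hΦ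
  simpa using this

lemma exists_big (c : ℕ) : ∃ n : ℕ, ((n + 2 + c) * 4) ^ (c + 1) < 2 ^ n := by
  have h := (tendsto_pow_const_div_const_pow_of_one_lt (c + 1) (show (1 : ℝ) < 2 by norm_num))
  have hpos : (0 : ℝ) < 1 / (4 * (c + 3)) ^ (c + 1) := by positivity
  have h1 := (h.eventually (gt_mem_nhds hpos)).and (Filter.eventually_ge_atTop 1)
  obtain ⟨n, hn, hn1⟩ := h1.exists
  refine ⟨n, ?_⟩
  rw [div_lt_div_iff₀ (by positivity) (by positivity)] at hn
  have h2 : ((n + 2 + c : ℕ) * 4) ≤ n * (4 * (c + 3)) := by nlinarith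
  have h3 : ((n + 2 + c) * 4) ^ (c + 1) ≤ n ^ (c + 1) * (4 * (c + 3)) ^ (c + 1) := by
    rw [← mul_pow]
    exact Nat.pow_le_pow_left h2 _
  have h4 : n ^ (c + 1) * (4 * (c + 3)) ^ (c + 1) < 2 ^ n := by
    rw [one_mul] at hn
    exact_mod_cast hn
  omega

/-- For every `c` there are finite connected graphs `G`, `H` with
`χ_L(G □ H) > max (χ_L G) (χ_L H) + c`. -/
theorem result (c : ℕ) :
    ∃ (V U : Type) (_ : Fintype V) (_ : Fintype U) (G : SimpleGraph V) (H : SimpleGraph U),
      G.Connected ∧ H.Connected ∧ max (chiL G) (chiL H) + c < chiL (G □ H) := by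
  obtain ⟨n, hn⟩ := exists_big c
  have : Nonempty (Fin (n + 2)) := ⟨0⟩
  have hconn : ((gr n) □ (⊤ : SimpleGraph (Fin (n + 2)))).Connected :=
    (gr_conn n).boxProd SimpleGraph.connected_top
  refine ⟨W n, Fin (n + 2), inferInstance, inferInstance, gr n, ⊤, gr_conn n,
    SimpleGraph.connected_top, ?_⟩
  have h1 : chiL (gr n) ≤ n + 2 := Nat.sInf_le (gr_locating n)
  have h2 : chiL (⊤ : SimpleGraph (Fin (n + 2))) ≤ n + 2 :=
    Nat.sInf_le (top_locating (n + 2) (by omega))
  have h3 : HasLocating ((gr n) □ (⊤ : SimpleGraph (Fin (n + 2))))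
      (chiL ((gr n) □ (⊤ : SimpleGraph (Fin (n + 2))))) :=
    Nat.sInf_mem (s := {k | HasLocating ((gr n) □ (⊤ : SimpleGraph (Fin (n + 2)))) k})
      ⟨_, exists_locating _ hconn⟩
  by_contra hcon
  rw [not_lt] at hcon
  have h4 : chiL ((gr n) □ (⊤ : SimpleGraph (Fin (n + 2)))) ≤ (n + 2) + c := by
    have : max (chiL (gr n)) (chiL (⊤ : SimpleGraph (Fin (n + 2)))) ≤ n + 2 := max_le h1 h2
    omega
  have h5 := count n (n + 2) _ c (by omega) h4 h3
  have h6 : (chiL ((gr n) □ (⊤ : SimpleGraph (Fin (n + 2)))) * 4) ^ (c + 1)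
      ≤ ((n + 2 + c) * 4) ^ (c + 1) := Nat.pow_le_pow_left (by omega) _
  have h7 : 2 ^ n ≤ Fintype.card (W n × Fin (n + 2)) := by
    simp only [Fintype.card_prod, Fintype.card_option, Fintype.card_sum, Fintype.card_fin,
      Fintype.card_finset]
    nlinarith [Nat.zero_le (2 ^ n), Nat.zero_le n]
  omega

end Pool.Agent.Results.MP_fc8d4d_co.LocatingProduct
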